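import Pool.Agent.W2helper82.OA.Stm

/-!
# Piece P3: the expected number of macroscopic clusters is bounded
-/

set_option autoImplicit false

namespace Pool.Agent.W2helper82.OA.P3

open H974 H12S Finset H984P H984N Pool.Agent.W2helper82.OA

/-- `k` pairwise disjoint crossings -/
def DD (a b c d : ℤ) : ℕ → Finset Edg → Prop
  | 0 => fun _ => True
  | k + 1 => DisjOcc (LRc a b c d) (DD a b c d k)

theorem DD_incr (S : Finset Edg) (a b c d : ℤ) (k : ℕ) : IncrE S (DD a b c d k) := by
  cases k with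
  | zero => intro _ _ _ _ _; trivial
  | succ k =>
    rintro F G hFG _ ⟨K, L, h1, h2, h3, h4, h5⟩
    exact ⟨K, L, h1.trans hFG, h2.trans hFG, h3, h4, h5⟩

theorem ph_ok : Ok ph := fun _ => by constructor <;> simp only [ph] <;> norm_num

theorem DD_pr (S : Finset Edg) (a b c d : ℤ) (k : ℕ) :
    Pr ph S (DD a b c d k) ≤ (Pr ph S (LRc a b c d)) ^ k := by
  induction k with
  | zero => simpa using Pr_le_one ph_ok S _
  | succ k ih =>
    rw [pow_succ, mul_comm]
    refine (bk ph_ok (LRc_incr S a b c d) (DD_incr S a b c d k)).trans ?_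
    exact mul_le_mul_of_nonneg_left ih (Pr_nonneg ph_ok _ _)

open Classical in
/-- edges of the cluster of `z` -/
noncomputable def KE (N : ℕ) (z : Vtx) (F : Finset Edg) : Finset Edg :=
  F.filter (fun e => e ∈ RE 0 N 0 N ∧ Reach (↑F ∩ ↑(RE 0 N 0 N)) z (src e))

theorem reach_KE {N : ℕ} {z w : Vtx} {F : Finset Edg}
    (h : Reach (↑F ∩ ↑(RE 0 N 0 N)) z w) :
    Reach (↑(KE N z F) ∩ ↑(RE 0 N 0 N)) z w := by
  have key : ∀ w, Reach (↑F ∩ ↑(RE 0 N 0 N)) z w →
      Reach (↑F ∩ ↑(RE 0 N 0 N)) z w ∧ Reach (↑(KE N z F) ∩ ↑(RE 0 N 0 N)) z w := by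
    intro w hw
    induction hw with
    | refl => exact ⟨Reach.refl _ _, Reach.refl _ _⟩
    | @tail w' w'' _ hstep ih =>
      obtain ⟨e, ⟨heF, heR⟩, hcase⟩ := hstep
      have h'' : Reach (↑F ∩ ↑(RE 0 N 0 N)) z w'' := ih.1.trans (Adj.reach ⟨e, ⟨heF, heR⟩, hcase⟩)
      refine ⟨h'', ih.2.trans (Adj.reach ⟨e, ⟨?_, heR⟩, hcase⟩)⟩
      simp only [KE, Finset.coe_filter, Set.mem_ofPred_eq]
      refine ⟨heF, heR, ?_⟩
      rcases hcase with ⟨h3, -⟩ | ⟨h3, -⟩
      · rw [h3]; exact ih.1
      · rw [h3]; exact h''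
  exact (key w h).2

theorem KE_disj {N m : ℕ} {z z' : Vtx} {F : Finset Edg} (h : Ez N m z F) (h' : Ez N m z' F)
    (hne : z ≠ z') : Disjoint (KE N z F) (KE N z' F) := by
  rw [Finset.disjoint_left]
  intro e he he'
  simp only [KE, Finset.mem_filter] at he he'
  have h1 : Reach (↑F ∩ ↑(RE 0 N 0 N)) z z' := he.2.2.trans he'.2.2.symm
  have h2 := h.2.1 z' h1
  have h3 := h'.2.1 z h1.symm
  simp only [Lx] at h2 h3
  apply hne
  ext <;> omega

theorem cross_KE {N m q : ℕ} {i : ℤ} {z : Vtx} {F : Finset Edg} (hq : 1 ≤ q) (h2 : 2 * q ≤ m)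
    (h : Ez N m z F) (hi : z.1 ≤ i * q) (hi2 : i * q < z.1 + q) :
    LRc (i * q) ((i + 1) * q) 0 N (KE N z F) := by
  obtain ⟨hz, -, w, hw, hr⟩ := h
  have hr' := reach_KE hr
  have e1 : (i + 1) * (q : ℤ) = i * q + q := by ring
  have hq' : (1 : ℤ) ≤ q := by exact_mod_cast hq
  have hm' : (2 : ℤ) * q ≤ m := by exact_mod_cast h2
  obtain ⟨y1, y2, h3, h4, h5, -⟩ := sub_LR (G := ↑(KE N z F) ∩ ↑(RE 0 N 0 N))
    (a := i * q) (b := (i + 1) * q) (c := 0) (d := N) (by rw [e1]; omega)
    (by rintro x y ⟨-, h⟩ _ _; simp only [mem_coe, mem_RE_true] at h; omega)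
    (by rintro x y ⟨-, h⟩ _ _; simp only [mem_coe, mem_RE_false] at h; omega) hr' hi
    (by rw [e1]; omega)
  refine ⟨y1, y2, h3, h4, h5.mono ?_⟩
  rintro e ⟨⟨h6, -⟩, h7⟩
  exact ⟨h6, h7⟩

/-- Pairwise different clusters crossing the same rectangle. -/
theorem DD_of {N m q : ℕ} {i : ℤ} {F : Finset Edg} (hq : 1 ≤ q) (h2 : 2 * q ≤ m)
    (T : Finset Vtx) (hT : ∀ z ∈ T, Ez N m z F ∧ z.1 ≤ i * q ∧ i * q < z.1 + q) :
    DD (i * q) ((i + 1) * q) 0 N T.card (T.biUnion (fun z => KE N z F)) := by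
  classical
  induction T using Finset.induction_on with
  | empty => trivial
  | insert z T hz ih =>
    rw [Finset.card_insert_of_notMem hz, Finset.biUnion_insert]
    have hz1 := hT z (Finset.mem_insert_self _ _)
    refine ⟨KE N z F, T.biUnion (fun z => KE N z F), Finset.subset_union_left,
      Finset.subset_union_right, ?_, cross_KE hq h2 hz1.1 hz1.2.1 hz1.2.2, ?_⟩
    · rw [Finset.disjoint_biUnion_right]
      intro z' hz'
      refine KE_disj hz1.1 (hT z' (Finset.mem_insert_of_mem hz')).1 ?_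
      rintro rfl
      exact hz hz'
    · exact ih (fun z' hz' => hT z' (Finset.mem_insert_of_mem hz'))

theorem DD_anti {a b c d : ℤ} {k l : ℕ} (hkl : k ≤ l) {F : Finset Edg} (h : DD a b c d l F) :
    DD a b c d k F := by
  induction l generalizing k F with
  | zero =>
    have : k = 0 := by omega
    subst this; trivial
  | succ l ih =>
    rcases Nat.eq_zero_or_pos k with rfl | hk
    · trivial
    · obtain ⟨k', rfl⟩ : ∃ k', k = k' + 1 := ⟨k - 1, by omega⟩
      obtain ⟨K, L, h1, h2, h3, h4, h5⟩ := h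
      exact ⟨K, L, h1, h2, h3, h4, ih (by omega) h5⟩

open Classical in
/-- One rectangle. -/
theorem one_rect {N m q : ℕ} {i : ℤ} (hq : 1 ≤ q) (h2 : 2 * q ≤ m) {c : ℝ} (hc : 0 < c)
    (hP : Pr ph (RE 0 N 0 N) (LRc (i * q) ((i + 1) * q) 0 N) ≤ 1 - c) :
    ∑ z ∈ (BX N).filter (fun z => z.1 ≤ i * q ∧ i * q < z.1 + q),
      Pr ph (RE 0 N 0 N) (Ez N m z) ≤ 1 / c := by
  set S := RE 0 N 0 N with hS
  set Z := (BX N).filter (fun z => z.1 ≤ i * q ∧ i * q < z.1 + q) with hZ
  set r := Pr ph S (LRc (i * q) ((i + 1) * q) 0 N) with hr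
  have hr0 : 0 ≤ r := Pr_nonneg ph_ok _ _
  have hc1 : c ≤ 1 := by linarith
  have step1 : ∑ z ∈ Z, Pr ph S (Ez N m z) ≤
      ∑ k ∈ Finset.range Z.card, Pr ph S (DD (i * q) ((i + 1) * q) 0 N (k + 1)) := by
    unfold Pr
    rw [← Ex_sum, ← Ex_sum]
    apply Ex_mono ph_ok
    intro F hF
    have e1 : ∑ z ∈ Z, ind (Ez N m z F) = ((Z.filter (fun z => Ez N m z F)).card : ℝ) := by
      rw [Finset.card_filter]
      push_cast
      apply Finset.sum_congr rfl
      intro z _
      by_cases h : Ez N m z F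
      · rw [ind_of h, if_pos h]
      · rw [ind_not_of h, if_neg h]
    rw [e1]
    set n := (Z.filter (fun z => Ez N m z F)).card with hn
    have hnZ : n ≤ Z.card := Finset.card_filter_le _ _
    have hD : DD (i * q) ((i + 1) * q) 0 N n F := by
      have h3 := DD_of (N := N) (m := m) (i := i) (F := F) hq h2 (Z.filter (fun z => Ez N m z F))
        (by
          intro z hz
          simp only [Finset.mem_filter, hZ] at hz
          exact ⟨hz.2, hz.1.2.1, hz.1.2.2⟩)
      refine DD_incr F _ _ _ _ _ _ F ?_ (Finset.Subset.refl _) h3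
      intro e he
      rw [Finset.mem_biUnion] at he
      obtain ⟨z, -, hz⟩ := he
      exact (Finset.mem_filter.mp hz).1
    have e2 : (n : ℝ) = ∑ k ∈ Finset.range n, (1 : ℝ) := by simp
    rw [e2]
    refine (Finset.sum_le_sum (fun k hk => ?_)).trans
      (Finset.sum_le_sum_of_subset_of_nonneg (Finset.range_mono hnZ) (fun k _ _ => ind_nonneg _))
    rw [Finset.mem_range] at hk
    rw [ind_of (DD_anti (by omega) hD)]
  refine step1.trans ?_
  have step2 : ∑ k ∈ Finset.range Z.card, Pr ph S (DD (i * q) ((i + 1) * q) 0 N (k + 1)) ≤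
      ∑ k ∈ Finset.range Z.card, (1 - c) ^ k := by
    apply Finset.sum_le_sum
    intro k _
    refine (DD_pr S _ _ _ _ (k + 1)).trans ?_
    calc r ^ (k + 1) ≤ (1 - c) ^ (k + 1) := pow_le_pow_left₀ hr0 hP _
      _ ≤ (1 - c) ^ k := pow_le_pow_of_le_one (by linarith) (by linarith) (Nat.le_succ k)
  refine step2.trans ?_
  have h3 := geom_sum_eq (x := 1 - c) (by linarith) Z.card
  rw [h3]
  rw [show (1 - c) - 1 = -c by ring, div_neg, ← neg_div]
  apply div_le_div_of_nonneg_right _ hc.le
  have : 0 ≤ (1 - c) ^ Z.card := pow_nonneg (by linarith) _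
  linarith

theorem s_cnt (hD : S_RSWD) : S_CNT := by
  classical
  intro K hK
  obtain ⟨c, hc, hcr⟩ := hD (3 * K) (by omega)
  refine ⟨(3 * K + 2) / c, by positivity, ?_⟩
  intro N m hm hN
  set q := m / 2 with hq
  have hq2 : 2 ≤ q := by omega
  have h2 : 2 * q ≤ m := by omega
  have hmq : m ≤ 3 * q := by omega
  have hNq : N ≤ 3 * K * q := by nlinarith
  -- group the vertices
  have hle : ∑ z ∈ BX N, Pr ph (RE 0 N 0 N) (Ez N m z) ≤
      ∑ i ∈ Finset.range (3 * K + 2), ∑ z ∈ (BX N).filter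
        (fun z => z.1 ≤ (i : ℤ) * q ∧ (i : ℤ) * q < z.1 + q),
        (if (((i : ℤ) + 1) * q ≤ N) then Pr ph (RE 0 N 0 N) (Ez N m z) else 0) := by
    have e1 : ∀ z ∈ BX N, Pr ph (RE 0 N 0 N) (Ez N m z) ≤
        ∑ i ∈ Finset.range (3 * K + 2), (if (z.1 ≤ (i : ℤ) * q ∧ (i : ℤ) * q < z.1 + q) then
          (if (((i : ℤ) + 1) * q ≤ N) then Pr ph (RE 0 N 0 N) (Ez N m z) else 0) else 0) := by
      intro z hz
      have hzB : (0 ≤ z.1 ∧ z.1 ≤ N) := by
        simp only [BX, Finset.mem_product, Finset.mem_Icc] at hz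
        exact hz.1
      by_cases hEx : ∃ F, F ⊆ RE 0 N 0 N ∧ Ez N m z F
      · obtain ⟨F, hF, hz1, -, w, hw, hr⟩ := hEx
        have hwN : w.1 ≤ N := by
          have key : ∀ w, Reach (↑F ∩ ↑(RE 0 N 0 N)) z w → w.1 ≤ N := by
            intro w hw
            induction hw with
            | refl => exact hzB.2
            | @tail w' w'' _ hstep ih =>
              obtain ⟨⟨x0, y0, bo⟩, ⟨-, heR⟩, hcase⟩ := hstep
              cases bo
              · have hm : 0 ≤ x0 ∧ x0 ≤ N ∧ 0 ≤ y0 ∧ y0 < N := by simpa using heR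
                simp only [src_mk, tgt_false] at hcase
                rcases hcase with ⟨h4, h5⟩ | ⟨h4, h5⟩
                · rw [← h5]; exact hm.2.1
                · rw [← h4]; exact hm.2.1
              · have hm : 0 ≤ x0 ∧ x0 < N ∧ 0 ≤ y0 ∧ y0 ≤ N := by simpa using heR
                simp only [src_mk, tgt_true] at hcase
                rcases hcase with ⟨h4, h5⟩ | ⟨h4, h5⟩
                · rw [← h5]; show x0 + 1 ≤ N; omega
                · rw [← h4]; show x0 ≤ (N : ℤ); omega
          exact key w hr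
        -- the index
        set i0 : ℕ := (z.1.toNat + q - 1) / q with hi0
        have hq0 : 0 < q := by omega
        have ha : (z.1.toNat + q - 1) / q * q ≤ z.1.toNat + q - 1 := Nat.div_mul_le_self _ _
        have hb : z.1.toNat + q - 1 < ((z.1.toNat + q - 1) / q + 1) * q :=
          Nat.lt_div_mul_add hq0 |> fun h => by nlinarith [h]
        have hz' : (z.1.toNat : ℤ) = z.1 := Int.toNat_of_nonneg hzB.1
        have hA : z.1 ≤ (i0 : ℤ) * q := by
          have : z.1.toNat ≤ i0 * q := by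
            have : z.1.toNat + q - 1 < i0 * q + q := by
              have := hb; rw [add_mul, one_mul] at this; exact this
            omega
          rw [← hz']; exact_mod_cast this
        have hB : (i0 : ℤ) * q < z.1 + q := by
          have : i0 * q < z.1.toNat + q := by
            have : i0 * q ≤ z.1.toNat + q - 1 := ha
            omega
          rw [← hz']; exact_mod_cast this
        have hC : ((i0 : ℤ) + 1) * q ≤ N := by
          have : ((i0 : ℤ) + 1) * q = i0 * q + q := by ring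
          have h2' : (2 : ℤ) * q ≤ m := by exact_mod_cast h2
          rw [this]; omega
        have hi1 : i0 ∈ Finset.range (3 * K + 2) := by
          rw [Finset.mem_range]
          have hD1 : (i0 + 1) * q ≤ 3 * K * q := by
            have : ((i0 : ℤ) + 1) * q ≤ ((3 * K * q : ℕ) : ℤ) :=
              hC.trans (by exact_mod_cast hNq)
            exact_mod_cast this
          have := Nat.le_of_mul_le_mul_right hD1 hq0
          omega
        refine le_trans ?_ (Finset.single_le_sum (f := fun i : ℕ =>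
          (if (z.1 ≤ (i : ℤ) * q ∧ (i : ℤ) * q < z.1 + q) then
          (if (((i : ℤ) + 1) * q ≤ N) then Pr ph (RE 0 N 0 N) (Ez N m z) else 0) else 0))
          (fun i _ => ?_) hi1)
        · rw [if_pos ⟨hA, hB⟩, if_pos hC]
        · split_ifs
          · exact Pr_nonneg ph_ok _ _
          · exact le_rfl
          · exact le_rfl
      · push Not at hEx
        have : Pr ph (RE 0 N 0 N) (Ez N m z) = 0 := by
          unfold Pr
          rw [Ex_congr (g := fun _ => 0) (fun F hF => ind_not_of (hEx F hF)), Ex_const]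
        rw [this]
        apply Finset.sum_nonneg
        intro i _
        split_ifs <;> exact le_rfl
    refine (Finset.sum_le_sum e1).trans ?_
    rw [Finset.sum_comm]
    apply Finset.sum_le_sum
    intro i _
    rw [Finset.sum_filter]
  refine hle.trans ?_
  have hone : ∀ i ∈ Finset.range (3 * K + 2), ∑ z ∈ (BX N).filter
        (fun z => z.1 ≤ (i : ℤ) * q ∧ (i : ℤ) * q < z.1 + q),
        (if (((i : ℤ) + 1) * q ≤ N) then Pr ph (RE 0 N 0 N) (Ez N m z) else 0) ≤ 1 / c := by
    intro i _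
    by_cases hiN : (((i : ℤ) + 1) * q ≤ N)
    · simp only [if_pos hiN]
      refine one_rect (by omega) h2 hc ?_
      rw [pr_LRc (1/2) (S := RE 0 N 0 N)]
      · have e3 : ((i : ℤ) + 1) * q - i * q = q := by ring
        rw [e3, sub_zero]
        have := hcr q N (by exact_mod_cast hq2) (by positivity) (by exact_mod_cast hNq)
        linarith
      · rintro ⟨x, y, b⟩ he
        have hq0 : (0 : ℤ) ≤ (i : ℤ) * q := by positivity
        cases b
        · simp only [mem_LRE_false, mem_RE_false] at he ⊢; omega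
        · simp only [mem_LRE_true, mem_RE_true] at he ⊢; omega
    · simp only [if_neg hiN, Finset.sum_const_zero]
      positivity
  refine (Finset.sum_le_sum hone).trans ?_
  rw [Finset.sum_const, Finset.card_range, nsmul_eq_mul]
  push_cast
  rw [mul_one_div]

end Pool.Agent.W2helper82.OA.P3
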